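import Pool.Agent.H295R2.MK.Final
import Pool.Agent.H306R2.EvenConst

set_option autoImplicit false

/-!
Explicit unconditional lower bounds for the `2k`-th moments of zeta on the critical line,
`k` even, by conjugate test functions with rational frequencies.
-/

open Filter

theorem Pool.Agent.Results.MP_112ba8_nt.EvenMoments2.result (k : ℕ) (hk : 1 ≤ k) (hk2 : Even k)
    (c : ℝ)
    (hc : c < (∏' p : Nat.Primes, ((1 - 1 / (p : ℝ)) ^ (k ^ 2) *
        ∑' m : ℕ, ((m + k - 1).choose m : ℝ) ^ 2 * (1 / (p : ℝ)) ^ m)) /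
          ((k ^ 2).factorial : ℝ) *
        ((1 / 2) ^ (k ^ 2) * ((k ^ 2).choose (k ^ 2 / 4) : ℝ) ^ 2)) :
    ∀ᶠ T : ℝ in atTop, c * Real.log T ^ (k ^ 2) ≤
      1 / T * ∫ t in (0:ℝ)..T, ‖riemannZeta (1 / 2 + t * Complex.I)‖ ^ (2 * k) := by
  obtain ⟨h, rfl⟩ := hk2
  have hh : 1 ≤ h := by omega
  have e2 : (h + h) ^ 2 / 4 = h ^ 2 := by
    rw [show (h + h) ^ 2 = 4 * h ^ 2 by ring, Nat.mul_div_cancel_left _ (by norm_num)]
  have e3 : (h + h) ^ 2 = 4 * h ^ 2 := by ring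
  have hmain := H295MK.mainK h c hh (by
    have e1 : (2 * (h : ℝ)) = ((h + h : ℕ) : ℝ) := by push_cast; ring
    rw [e1, Pool.Agent.H306R2.aF_nat (h + h) (by omega)]
    refine lt_of_lt_of_eq hc ?_
    rw [e2, e3])
  filter_upwards [hmain, eventually_gt_atTop 0] with T hT hT0
  rw [show 4 * h = 2 * (h + h) by ring] at hT
  rw [one_div, ← div_eq_inv_mul, le_div_iff₀ hT0, e3]
  linarith
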